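import Pool.Agent.Helper15.RA.GoalsK

/-!
# Project RA (MP_cc6379_al), packet RA-KD: the Difference Lemma.
-/

set_option autoImplicit false

open LaurentPolynomial

noncomputable section

namespace Pool.Agent.Helper98.RA

open Pool.Agent.Helper15.RA

variable {I W V H : Type} [Group W] [Ring H] [Algebra ℤ[T;T⁻¹] H]

theorem clq_remove {Γ : SimpleGraph V} {G : V → Subgroup W} {K₁ K₂ : List W} {k : W}
    (h : IsClq Γ G (K₁ ++ k :: K₂)) : IsClq Γ G (K₁ ++ K₂) := by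
  have hs : (K₁ ++ K₂).Sublist (K₁ ++ k :: K₂) :=
    List.Sublist.append_left (List.sublist_cons_self k K₂) K₁
  exact ⟨fun l hl => h.1 l (hs.subset hl), h.2.sublist hs⟩

/-- removing one syllable from the clique in `Red`, with the comparison of `ε` -/
theorem red_remove (e1 : E_1) (e2 : E_2) (X : Ctx I W V H) (M : ℕ) {x y : W} {K₁ K₂ : List W} {k : W}
    (h : X.Red x (K₁ ++ k :: K₂) y) :
    X.Red x (K₁ ++ K₂) y ∧ X.eps M x (K₁ ++ k :: K₂) y ≤ X.eps M x (K₁ ++ K₂) y := by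
  obtain ⟨hc, hx, hy⟩ := h
  obtain ⟨a1, a2, -, -⟩ := e1 V W X.Γ X.G X.sl X.gp
  obtain ⟨-, -, a3, -⟩ := e2 I W V H X
  have hc' : X.Clq (K₁ ++ K₂) := clq_remove hc
  have hlen : (K₁ ++ k :: K₂).length = (K₁ ++ K₂).length + 1 := by
    simp only [List.length_append, List.length_cons]; omega
  have hk : X.sl k = 1 := by
    obtain ⟨hk1, v, hv⟩ := hc.1 k (by simp)
    exact X.gp.syl v k hv hk1
  have hp1 : (K₁ ++ k :: K₂).prod = k * (K₁ ++ K₂).prod := by
    have hperm : (K₁ ++ k :: K₂).Perm (k :: (K₁ ++ K₂)) := List.perm_middle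
    rw [(a2 _ _ hc hperm).2, List.prod_cons]
  have hp2 : (K₁ ++ k :: K₂).prod = (K₁ ++ K₂).prod * k := by
    have hperm : (K₁ ++ k :: K₂).Perm ((K₁ ++ K₂) ++ [k]) :=
      List.perm_middle.trans (List.perm_append_singleton k (K₁ ++ K₂)).symm
    rw [(a2 _ _ hc hperm).2, List.prod_append, List.prod_singleton]
  have hd : X.sl (K₁ ++ K₂).prod = (K₁ ++ K₂).length := a1 _ hc'
  have hx' : X.sl (x * (K₁ ++ K₂).prod) = X.sl x + (K₁ ++ K₂).length := by
    have t1 := X.gp.mul (x * (K₁ ++ K₂).prod) k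
    have t2 := X.gp.mul x (K₁ ++ K₂).prod
    rw [mul_assoc, ← hp2] at t1
    omega
  have hy' : X.sl ((K₁ ++ K₂).prod * y) = (K₁ ++ K₂).length + X.sl y := by
    have t1 := X.gp.mul k ((K₁ ++ K₂).prod * y)
    have t2 := X.gp.mul (K₁ ++ K₂).prod y
    rw [← mul_assoc, ← hp1] at t1
    omega
  refine ⟨⟨hc', hx', hy'⟩, X.eps_le ?_ ?_⟩
  · intro hge
    have := a3 M (x * (K₁ ++ K₂).prod) k (by rw [mul_assoc, ← hp2]; omega) (Or.inl hge)
    rwa [mul_assoc, ← hp2] at this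
  · intro hge
    have := a3 M k ((K₁ ++ K₂).prod * y) (by rw [← mul_assoc, ← hp1]; omega) (Or.inr hge)
    rwa [← mul_assoc, ← hp1] at this

theorem e_sub (X : Ctx I W V H) {v : V} {k : W} (hk : k ∈ X.G v) (b b' : Bool) :
    ∃ q : ℤ[T;T⁻¹], DegLE (-(X.α k : ℤ)) q ∧ X.e (k, b) - X.e (k, b') = q • (1 : H) := by
  have hp := X.p1 v k hk
  cases b <;> cases b'
  · exact ⟨0, DegLE.zero _, by simp⟩
  · exact ⟨X.D.t.repr (X.D.c k) 1, hp, by simp [Ctx.e]⟩
  · exact ⟨-X.D.t.repr (X.D.c k) 1, hp.neg, by simp [Ctx.e]⟩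
  · exact ⟨0, DegLE.zero _, by simp⟩

/-- one flag is changed -/
theorem diff_one (e1 : E_1) (e2 : E_2) (X : Ctx I W V H) (n : ℕ) (hS : X.SB n) (M : ℕ) (x y : W)
    (F₁ F₂ : List (W × Bool)) (k : W) (b b' : Bool)
    (hR : X.Red x ((F₁ ++ (k, b) :: F₂).map Prod.fst) y)
    (hn : X.sl x + (F₁ ++ (k, b) :: F₂).length + X.sl y ≤ n) :
    X.LamT M (X.sl x + (F₁ ++ (k, b) :: F₂).length + X.sl y - 1)
      ((M : ℤ) - X.aK ((F₁ ++ (k, b) :: F₂).map Prod.fst) - X.eps M x ((F₁ ++ (k, b) :: F₂).map Prod.fst) y)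
      (X.D.t x * ((F₁ ++ (k, b) :: F₂).map X.e).prod * X.D.t y -
        X.D.t x * ((F₁ ++ (k, b') :: F₂).map X.e).prod * X.D.t y) := by
  have hmap : (F₁ ++ (k, b) :: F₂).map Prod.fst = F₁.map Prod.fst ++ k :: F₂.map Prod.fst := by simp
  have hmap' : (F₁ ++ F₂).map Prod.fst = F₁.map Prod.fst ++ F₂.map Prod.fst := by simp
  have hlen : (F₁ ++ (k, b) :: F₂).length = (F₁ ++ F₂).length + 1 := by
    simp only [List.length_append, List.length_cons]; omega
  rw [hmap] at hR ⊢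
  obtain ⟨hR', he⟩ := red_remove e1 e2 X M hR
  obtain ⟨-, v, hv⟩ := hR.1.1 k (by simp)
  obtain ⟨q, hq, hqe⟩ := e_sub X hv b b'
  rw [← hmap'] at hR' he
  have hPB : X.PB M x (F₁ ++ F₂) y := hS M x (F₁ ++ F₂) y hR' (by omega)
  unfold Ctx.PB at hPB
  have hdiff : X.D.t x * ((F₁ ++ (k, b) :: F₂).map X.e).prod * X.D.t y -
        X.D.t x * ((F₁ ++ (k, b') :: F₂).map X.e).prod * X.D.t y =
      q • (X.D.t x * ((F₁ ++ F₂).map X.e).prod * X.D.t y) := by
    simp only [List.map_append, List.map_cons, List.prod_append, List.prod_cons]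
    have : X.D.t x * ((F₁.map X.e).prod * (X.e (k, b) * (F₂.map X.e).prod)) * X.D.t y -
        X.D.t x * ((F₁.map X.e).prod * (X.e (k, b') * (F₂.map X.e).prod)) * X.D.t y =
        X.D.t x * ((F₁.map X.e).prod * ((X.e (k, b) - X.e (k, b')) * (F₂.map X.e).prod)) * X.D.t y := by
      noncomm_ring
    rw [this, hqe]
    simp only [smul_mul_assoc, one_mul, mul_smul_comm]
  rw [hdiff]
  refine Ctx.LamT.smul_le hq hPB (by omega) ?_
  have ha : X.aK (F₁.map Prod.fst ++ k :: F₂.map Prod.fst) = X.α k + X.aK ((F₁ ++ F₂).map Prod.fst) := by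
    rw [hmap', X.aK_append, X.aK_append, X.aK_cons]; omega
  rw [ha]
  push_cast
  linarith

/-- the flags of a suffix are changed -/
theorem diff_suffix (e1 : E_1) (e2 : E_2) (X : Ctx I W V H) (n : ℕ) (hS : X.SB n) (M : ℕ) (x y : W) :
    ∀ (F F' F₁ : List (W × Bool)), F.map Prod.fst = F'.map Prod.fst →
      X.Red x ((F₁ ++ F).map Prod.fst) y → X.sl x + (F₁ ++ F).length + X.sl y ≤ n →
      X.LamT M (X.sl x + (F₁ ++ F).length + X.sl y - 1)
        ((M : ℤ) - X.aK ((F₁ ++ F).map Prod.fst) - X.eps M x ((F₁ ++ F).map Prod.fst) y)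
        (X.D.t x * ((F₁ ++ F).map X.e).prod * X.D.t y -
          X.D.t x * ((F₁ ++ F').map X.e).prod * X.D.t y) := by
  intro F
  induction F with
  | nil =>
    intro F' F₁ hF _ _
    have : F' = [] := by simpa using hF.symm
    subst this
    rw [sub_self]
    exact Ctx.LamT.zero _ _ _
  | cons a F ih =>
    intro F' F₁ hF hR hn
    cases F' with
    | nil => simp at hF
    | cons a' F' =>
      obtain ⟨k, b⟩ := a
      obtain ⟨k', b'⟩ := a'
      simp only [List.map_cons, List.cons.injEq] at hF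
      obtain ⟨hk, hF⟩ := hF
      subst hk
      have h1 := diff_one e1 e2 X n hS M x y F₁ F k b b' hR hn
      have hm : (F₁ ++ (k, b) :: F).map Prod.fst = ((F₁ ++ [(k, b')]) ++ F).map Prod.fst := by simp
      have hl : (F₁ ++ (k, b) :: F).length = ((F₁ ++ [(k, b')]) ++ F).length := by simp
      have h2 := ih F' (F₁ ++ [(k, b')]) hF (by rw [← hm]; exact hR) (by rw [← hl]; exact hn)
      rw [← hm, ← hl] at h2
      have h3 := h1.add h2
      have e3 : (F₁ ++ [(k, b')]) ++ F = F₁ ++ (k, b') :: F := by simp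
      have e4 : (F₁ ++ [(k, b')]) ++ F' = F₁ ++ (k, b') :: F' := by simp
      rw [e3, e4, sub_add_sub_cancel] at h3
      exact h3

theorem h_kd (e1 : E_1) (e2 : E_2) : Pool.Agent.Helper15.RA.K_D := by
  intro I W V H _ _ _ X n hS M x F F' y hF hR hn
  have := diff_suffix e1 e2 X n hS M x y F F' [] hF (by simpa using hR) (by simpa using hn)
  simpa using this

end Pool.Agent.Helper98.RA
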