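import Pool.Agent.Helper98.RA.RTGen

/-!
# Project RA (MP_cc6379_al), packet RA-RT: the longest element of a finite dihedral group.
-/

set_option autoImplicit false

open LaurentPolynomial

noncomputable section

namespace Pool.Agent.Helper98.RA

open Pool.Agent.Helper15.RA

section longest

variable {I W H : Type} [Group W] [Ring H] [Algebra ℤ[T;T⁻¹] H] {M : CoxeterMatrix I}
  {cs : CoxeterSystem M W} {L : W → ℕ} [Fintype W]

/-- `ω' = ∑_y v^(L(y) - L(w₀)) T_y` -/
def om (D : Hecke0 cs L H) (w0 : W) : H := ∑ y, (T ((L y : ℤ) - L w0) : ℤ[T;T⁻¹]) • D.t y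

theorem repr_om (D : Hecke0 cs L H) (w0 y : W) : D.t.repr (om D w0) y = T ((L y : ℤ) - L w0) := by
  classical
  unfold om
  rw [map_sum, Finsupp.finsetSum_apply, Finset.sum_eq_single y]
  · rw [map_smul, Finsupp.smul_apply, Module.Basis.repr_self, Finsupp.single_eq_same, smul_eq_mul, mul_one]
  · intro z _ hz
    rw [map_smul, Finsupp.smul_apply, Module.Basis.repr_self, Finsupp.single_apply, if_neg hz, smul_zero]
  · intro h
    exact absurd (Finset.mem_univ y) h

theorem om_left (h1 : H_1) (wt : IsWeight cs L) (D : Hecke0 cs L H) (w0 : W) (i : I) :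
    D.t (cs.simple i) * om D w0 = (T (L (cs.simple i) : ℤ) : ℤ[T;T⁻¹]) • om D w0 := by
  refine (eig_left h1 D i _).2 fun z hz => ?_
  have h3 := wt.add (cs.simple i) z (by rw [cs.length_simple]; omega)
  rw [repr_om, repr_om, ← T_add, h3]
  congr 1
  push_cast
  ring

theorem om_right (h1 : H_1) (wt : IsWeight cs L) (D : Hecke0 cs L H) (w0 : W) (i : I) :
    om D w0 * D.t (cs.simple i) = (T (L (cs.simple i) : ℤ) : ℤ[T;T⁻¹]) • om D w0 := by
  refine eig_right h1 D i _ fun z hz => ?_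
  have h3 := wt.add z (cs.simple i) (by rw [cs.length_simple]; omega)
  rw [repr_om, repr_om, ← T_add, h3]
  congr 1
  push_cast
  ring

theorem bar_om (h1 : H_1) (h2 : H_2) (wt : IsWeight cs L) (hL1 : L 1 = 0) (D : Hecke cs L H) (w0 : W)
    (hmax : ∀ y, y ≠ w0 → cs.length y < cs.length w0) : D.bar (om D.toHecke0 w0) = om D.toHecke0 w0 := by
  classical
  obtain ⟨hsemi, hb1, hb2, -⟩ := h2 I W H M cs L wt D
  set Y := D.bar (om D.toHecke0 w0) with hY
  have heig : ∀ i, D.t (cs.simple i) * Y = (T (L (cs.simple i) : ℤ) : ℤ[T;T⁻¹]) • Y := by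
    intro i
    have e1 := congrArg D.bar (om_left h1 wt D.toHecke0 w0 i)
    rw [map_mul, hsemi, invert_T, ← hY] at e1
    have e2 := (D.bar_t 0 (cs.simple i)).2
    rw [T_zero, one_smul, neg_zero, T_zero, one_smul, cs.inv_simple] at e2
    have e3 : Y = D.t (cs.simple i) * ((T (-(L (cs.simple i) : ℤ)) : ℤ[T;T⁻¹]) • Y) := by
      rw [← e1, ← mul_assoc, e2, one_mul]
    have e4 : (T (L (cs.simple i) : ℤ) : ℤ[T;T⁻¹]) • Y = (T (L (cs.simple i) : ℤ) : ℤ[T;T⁻¹]) •
        (D.t (cs.simple i) * ((T (-(L (cs.simple i) : ℤ)) : ℤ[T;T⁻¹]) • Y)) := by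
      rw [← e3]
    rw [e4, mul_smul_comm, smul_smul, TT_neg, one_smul]
  have hcoord := eig_coord h1 wt hL1 D.toHecke0 Y heig
  have hw0 : D.t.repr Y w0 = 1 := by
    rw [hY, om, map_sum, map_sum, Finsupp.finsetSum_apply, Finset.sum_eq_single w0]
    · rw [hsemi, sub_self, T_zero, map_one, one_smul, hb1]
    · intro z _ hz
      rw [hsemi, map_smul, Finsupp.smul_apply]
      by_contra h
      have h5 : D.t.repr (D.bar (D.t z)) w0 ≠ 0 := fun h6 => h (by rw [h6, smul_zero])
      rcases hb2 z w0 h5 with h6 | h6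
      · exact hz h6.symm
      · have := hmax z hz
        omega
    · intro h
      exact absurd (Finset.mem_univ w0) h
  have h1' : D.t.repr Y 1 = T (-(L w0 : ℤ)) := by
    have e := hcoord w0
    rw [hw0] at e
    calc D.t.repr Y 1 = T (-(L w0 : ℤ)) * (T (L w0 : ℤ) * D.t.repr Y 1) := by
          rw [← mul_assoc, TT_neg', one_mul]
      _ = T (-(L w0 : ℤ)) := by rw [← e, mul_one]
  refine D.t.repr.injective (Finsupp.ext fun y => ?_)
  rw [hcoord y, h1', repr_om, ← T_add, sub_eq_add_neg]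

theorem c_w0 (h1 : H_1) (h2 : H_2) (wt : IsWeight cs L) (hL1 : L 1 = 0) (D : Hecke cs L H) (w0 : W)
    (hmax : ∀ y, y ≠ w0 → cs.length y < cs.length w0) (hmono : ∀ x y, cs.length y < cs.length x → L y < L x) :
    D.c w0 = om D.toHecke0 w0 := by
  classical
  obtain ⟨-, -, -, -, -, -, huniq, -⟩ := h2 I W H M cs L wt D
  refine (huniq w0 _ (bar_om h1 h2 wt hL1 D w0 hmax) fun y => ?_).symm
  rw [map_sub, Finsupp.sub_apply, Module.Basis.repr_self, repr_om, Finsupp.single_apply]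
  by_cases hy : w0 = y
  · subst hy
    rw [if_pos rfl, sub_self, T_zero, sub_self]
    exact DegLE.zero _
  · rw [if_neg hy, sub_zero]
    have := hmono w0 y (hmax y (fun h => hy h.symm))
    exact DegLE.T_le (by omega)

/-- `χ₀(x) = ∑_y p_(y,x) v^(L y)` -/
def chi (D : Hecke cs L H) (x : W) : ℤ[T;T⁻¹] := ∑ y, D.t.repr (D.c x) y * T (L y : ℤ)

theorem c_mul_om (h1 : H_1) (wt : IsWeight cs L) (hL1 : L 1 = 0) (D : Hecke cs L H) (w0 x : W) :
    D.c x * om D.toHecke0 w0 = chi D x • om D.toHecke0 w0 := by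
  conv_lhs => rw [← D.t.sum_repr (D.c x)]
  rw [Finset.sum_mul, chi, Finset.sum_smul]
  refine Finset.sum_congr rfl fun y _ => ?_
  rw [smul_mul_assoc, eig_all_left h1 wt hL1 D.toHecke0 _ (om_left h1 wt D.toHecke0 w0) y, smul_smul]

theorem om_mul_c (h1 : H_1) (wt : IsWeight cs L) (hL1 : L 1 = 0) (D : Hecke cs L H) (w0 x : W) :
    om D.toHecke0 w0 * D.c x = chi D x • om D.toHecke0 w0 := by
  conv_lhs => rw [← D.t.sum_repr (D.c x)]
  rw [Finset.mul_sum, chi, Finset.sum_smul]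
  refine Finset.sum_congr rfl fun y _ => ?_
  rw [mul_smul_comm, eig_all_right h1 wt hL1 D.toHecke0 _ (om_right h1 wt D.toHecke0 w0) y, smul_smul]

theorem chi_deg (h2 : H_2) (wt : IsWeight cs L) (D : Hecke cs L H)
    (hmono : ∀ x y, cs.length y < cs.length x → L y < L x) (x : W) :
    DegLE (L x) (chi D x) ∧ (chi D x).coeff (L x) = 1 := by
  classical
  obtain ⟨-, -, -, hc1, hc2, hc3, -⟩ := h2 I W H M cs L wt D
  have hsplit : chi D x = T (L x : ℤ) + ∑ y ∈ Finset.univ.erase x, D.t.repr (D.c x) y * T (L y : ℤ) := by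
    rw [chi, ← Finset.add_sum_erase _ _ (Finset.mem_univ x), hc1, one_mul]
  have hrest : DegLE ((L x : ℤ) - 1) (∑ y ∈ Finset.univ.erase x, D.t.repr (D.c x) y * T (L y : ℤ)) := by
    refine DegLE.sum fun y hy => ?_
    have hy' : y ≠ x := (Finset.mem_erase.1 hy).1
    by_cases h0 : D.t.repr (D.c x) y = 0
    · rw [h0, zero_mul]
      exact DegLE.zero _
    · rcases hc2 x y h0 with h3 | h3
      · exact absurd h3 hy'
      · have := hmono x y h3
        exact (hc3 x y hy').mul_le (DegLE.T_le le_rfl) (by omega)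
  rw [hsplit]
  refine ⟨(DegLE.T_le le_rfl).add (hrest.mono (by omega)), ?_⟩
  rw [AddMonoidAlgebra.coeff_add, Finsupp.add_apply, hrest _ (by omega), add_zero, T_apply, if_pos rfl]

omit [Fintype W] in
theorem repr_c_mul (h3 : H_3) (wt : IsWeight cs L) (D : Hecke cs L H) (h : W → W → W →₀ ℤ[T;T⁻¹])
    (hh : D.IsH h) : ∃ b : Module.Basis W ℤ[T;T⁻¹] H, (∀ w, b w = D.c w) ∧
      ∀ x y, b.repr (D.c x * D.c y) = h x y := by
  obtain ⟨⟨b, hb, -⟩, -⟩ := h3 I W H M cs L wt D
  refine ⟨b, hb, fun x y => ?_⟩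
  have : D.c x * D.c y = Finsupp.linearCombination ℤ[T;T⁻¹] b (h x y) := by
    rw [hh x y, Finsupp.linearCombination_apply]
    exact Finsupp.sum_congr fun z _ => by rw [hb]
  rw [this, Module.Basis.repr_linearCombination]

theorem longest_main (h1 : H_1) (h2 : H_2) (h3 : H_3) (wt : IsWeight cs L) (hL1 : L 1 = 0)
    (D : Hecke cs L H) (h : W → W → W →₀ ℤ[T;T⁻¹]) (hh : D.IsH h) (w0 : W)
    (hmax : ∀ y, y ≠ w0 → cs.length y < cs.length w0) (hmono : ∀ x y, cs.length y < cs.length x → L y < L x) :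
    (∀ i, D.c (cs.simple i) * D.c w0 = dl (L (cs.simple i)) • D.c w0) ∧
    (∀ i, D.c w0 * D.c (cs.simple i) = dl (L (cs.simple i)) • D.c w0) ∧
    (∀ x z, z ≠ w0 → h x w0 z = 0 ∧ h w0 x z = 0) ∧
    (∀ y, D.t.repr (D.c w0) y = T ((L y : ℤ) - L w0)) ∧
    (h w0 w0 w0).coeff (L w0) ≠ 0 ∧
    ∀ a₀ : W → ℕ, (∀ z, z ≠ w0 → a₀ z + L z < 2 * L w0 ∧ ∀ x y, DegLE (a₀ z) (h x y z)) →
      ∀ x y, DegLE (L w0) (h x y w0) ∧
        (x ≠ w0 ∨ y ≠ w0 → DegLE ((L w0 : ℤ) - 1) (h x y w0)) := by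
  classical
  have hc := c_w0 h1 h2 wt hL1 D w0 hmax hmono
  obtain ⟨-, -, -, -, -, -, -, -, hcs, -⟩ := h2 I W H M cs L wt D
  obtain ⟨b, hb, hbr⟩ := repr_c_mul h3 wt D h hh
  have hLlt : ∀ y, y ≠ w0 → L y < L w0 := fun y hy => hmono w0 y (hmax y hy)
  have hleft : ∀ x, D.c x * D.c w0 = chi D x • D.c w0 := fun x => by
    rw [hc]; exact c_mul_om h1 wt hL1 D w0 x
  have hright : ∀ x, D.c w0 * D.c x = chi D x • D.c w0 := fun x => by
    rw [hc]; exact om_mul_c h1 wt hL1 D w0 x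
  have hxw : ∀ x, h x w0 = Finsupp.single w0 (chi D x) := fun x => by
    rw [← hbr, hleft, ← hb w0, map_smul, Module.Basis.repr_self, Finsupp.smul_single, smul_eq_mul, mul_one]
  have hwx : ∀ x, h w0 x = Finsupp.single w0 (chi D x) := fun x => by
    rw [← hbr, hright, ← hb w0, map_smul, Module.Basis.repr_self, Finsupp.smul_single, smul_eq_mul, mul_one]
  have hdl : ∀ n : ℕ, dl n = T (n : ℤ) + T (-(n : ℤ)) := fun n => rfl
  refine ⟨fun i => ?_, fun i => ?_, fun x z hz => ⟨?_, ?_⟩, fun y => ?_, ?_, fun a₀ ha₀ x y => ?_⟩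
  · rw [hc, hcs i, add_mul, om_left h1 wt D.toHecke0 w0 i, smul_mul_assoc, one_mul, ← add_smul, hdl]
  · rw [hc, hcs i, mul_add, om_right h1 wt D.toHecke0 w0 i, mul_smul_comm, mul_one, ← add_smul, hdl]
  · rw [hxw, Finsupp.single_apply, if_neg (fun h => hz h.symm)]
  · rw [hwx, Finsupp.single_apply, if_neg (fun h => hz h.symm)]
  · rw [hc, repr_om]
  · rw [hxw, Finsupp.single_eq_same, (chi_deg h2 wt D hmono w0).2]
    exact one_ne_zero
  · -- the product formula for `χ₀`
    have hprod : chi D x * chi D y = ∑ z, h x y z * chi D z := by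
      have e1 : D.c x * D.c y * D.c w0 = (chi D x * chi D y) • D.c w0 := by
        rw [mul_assoc, hleft, mul_smul_comm, hleft, smul_smul, mul_comm (chi D y)]
      have e2 : D.c x * D.c y * D.c w0 = (∑ z, h x y z * chi D z) • D.c w0 := by
        have e3 : D.c x * D.c y = ∑ z, h x y z • D.c z := by
          rw [hh x y, Finsupp.sum_fintype]
          exact fun _ => zero_smul _ _
        rw [e3, Finset.sum_mul, Finset.sum_smul]
        exact Finset.sum_congr rfl fun z _ => by rw [smul_mul_assoc, hleft, smul_smul]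
      have e4 := congrArg (fun Z => b.repr Z w0) (e1.symm.trans e2)
      simp only [← hb w0, map_smul, Finsupp.smul_apply, Module.Basis.repr_self, Finsupp.single_eq_same,
        smul_eq_mul, mul_one] at e4
      exact e4
    have hsplit : h x y w0 * chi D w0 =
        chi D x * chi D y - ∑ z ∈ Finset.univ.erase w0, h x y z * chi D z := by
      rw [hprod, ← Finset.add_sum_erase _ _ (Finset.mem_univ w0)]
      ring
    have hrest : DegLE (2 * (L w0 : ℤ) - 1) (∑ z ∈ Finset.univ.erase w0, h x y z * chi D z) := by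
      refine DegLE.sum fun z hz => ?_
      have hz' : z ≠ w0 := (Finset.mem_erase.1 hz).1
      obtain ⟨h5, h6⟩ := ha₀ z hz'
      exact (h6 x y).mul_le (chi_deg h2 wt D hmono z).1 (by omega)
    have hle : ∀ z, L z ≤ L w0 := fun z => by
      by_cases hz : z = w0
      · rw [hz]
      · exact (hLlt z hz).le
    have hq := chi_deg h2 wt D hmono w0
    have hq0 : (chi D w0).coeff (L w0 : ℤ) ≠ 0 := by rw [hq.2]; exact one_ne_zero
    have hxy := (chi_deg h2 wt D hmono x).1.mul (chi_deg h2 wt D hmono y).1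
    constructor
    · refine degLE_of_mul hq.1 hq0 ?_
      rw [hsplit]
      have := hle x
      have := hle y
      exact (hxy.mono (by omega)).sub (hrest.mono (by omega))
    · intro hne
      refine degLE_of_mul hq.1 hq0 ?_
      rw [hsplit]
      have h7 : L x + L y < 2 * L w0 := by
        have := hle x
        have := hle y
        rcases hne with hne | hne
        · have := hLlt x hne
          omega
        · have := hLlt y hne
          omega
      exact (hxy.mono (by omega)).sub (hrest.mono (by omega))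

end longest

theorem h_rt (h1 : H_1) (h2 : H_2) (h3 : H_3) (rw0 : R_W) : Pool.Agent.Helper15.RA.R_T := by
  classical
  intro I W H _ _ _ X
  have hm := X.hm
  have hsym : X.M X.j X.i = X.M X.i X.j := X.M.symmetric X.j X.i
  obtain ⟨a1, a2, a3, a4, -, -, a7⟩ := rw0 I W X.M X.cs X.i X.j X.ne X.all (by omega)
  obtain ⟨b1, b2, b3, b4, -, -, b7⟩ := rw0 I W X.M X.cs X.j X.i X.ne.symm (fun k => (X.all k).symm) (by omega)
  rw [hsym] at b1 b2 b3 b4 b7
  obtain ⟨hL1, -, a8, -⟩ := a7 X.L X.wt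
  obtain ⟨-, -, b8, -⟩ := b7 X.L X.wt
  have hw0 : X.w0 = al X.cs X.i X.j (X.M X.i X.j) := rfl
  -- `W` is finite
  have hfin : Finite W := by
    let f : Fin (X.M X.i X.j + 1) × Bool → W := fun p =>
      if p.2 then al X.cs X.i X.j p.1 else al X.cs X.j X.i p.1
    refine Finite.of_surjective f fun w => ?_
    obtain ⟨k, hk, h5 | h5⟩ := a3 w
    · exact ⟨(⟨k, by omega⟩, true), by simp [f, h5]⟩
    · exact ⟨(⟨k, by omega⟩, false), by simp [f, h5]⟩
  have hF : Fintype W := Fintype.ofFinite W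
  have hlen0 : X.cs.length X.w0 = X.M X.i X.j := a1 _ le_rfl
  have hmax : ∀ y, y ≠ X.w0 → X.cs.length y < X.cs.length X.w0 := by
    intro y hy
    rw [hlen0]
    obtain ⟨k, hk, h5 | h5⟩ := a3 y
    · rw [h5, a1 k hk]
      refine lt_of_le_of_ne hk fun h6 => hy ?_
      rw [h5, h6, hw0]
    · rw [h5, b1 k hk]
      refine lt_of_le_of_ne hk fun h6 => hy ?_
      rw [h5, h6, hw0, a2]
  -- monotonicity of `L`
  have hstep : ∀ d k, k + d + 1 ≤ X.M X.i X.j →
      (X.L (al X.cs X.i X.j k) < X.L (al X.cs X.i X.j (k + d + 1)) ∧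
        X.L (al X.cs X.i X.j k) < X.L (al X.cs X.j X.i (k + d + 1))) ∧
      (X.L (al X.cs X.j X.i k) < X.L (al X.cs X.i X.j (k + d + 1)) ∧
        X.L (al X.cs X.j X.i k) < X.L (al X.cs X.j X.i (k + d + 1))) := by
    intro d
    induction d with
    | zero =>
      intro k hk
      have e1 := a8 k (by omega)
      have e2 := b8 k (by omega)
      exact ⟨⟨e1.1, e2.2⟩, ⟨e1.2, e2.1⟩⟩
    | succ d ih =>
      intro k hk
      have e0 := ih k (by omega)
      have e1 := a8 (k + d + 1) (by omega)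
      have e2 := b8 (k + d + 1) (by omega)
      have e3 : k + (d + 1) + 1 = k + d + 1 + 1 := by ring
      rw [e3]
      exact ⟨⟨e0.1.1.trans e1.1, e0.1.1.trans e2.2⟩, ⟨e0.2.1.trans e1.1, e0.2.1.trans e2.2⟩⟩
  have hmono : ∀ x y, X.cs.length y < X.cs.length x → X.L y < X.L x := by
    intro x y hxy
    obtain ⟨k, hk, h5⟩ := a3 x
    obtain ⟨l, hl, h6⟩ := a3 y
    have hk' : X.cs.length x = k := by
      rcases h5 with h5 | h5
      · rw [h5, a1 k hk]
      · rw [h5, b1 k hk]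
    have hl' : X.cs.length y = l := by
      rcases h6 with h6 | h6
      · rw [h6, a1 l hl]
      · rw [h6, b1 l hl]
    obtain ⟨d, hd⟩ : ∃ d, k = l + d + 1 := ⟨k - l - 1, by omega⟩
    have e := hstep d l (by omega)
    rw [← hd] at e
    rcases h5 with h5 | h5 <;> rcases h6 with h6 | h6 <;> rw [h5, h6]
    · exact e.1.1
    · exact e.2.1
    · exact e.1.2
    · exact e.2.2
  obtain ⟨c1, c2, c3, c4, c5, c6⟩ :=
    longest_main h1 h2 h3 X.wt hL1 X.D X.h X.isH X.w0 hmax hmono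
  exact ⟨c1 X.i, c1 X.j, c2 X.i, c2 X.j, c3, c4, c5, c6⟩

end Pool.Agent.Helper98.RA
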