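import Pool.Agent.Helper15.RA.GoalsR

/-!
# Project RA (MP_cc6379_al), packet RA-RT, part 1: eigenvectors of the `T_s` in a Hecke algebra.
-/

set_option autoImplicit false

open LaurentPolynomial

noncomputable section

namespace Pool.Agent.Helper98.RA

open Pool.Agent.Helper15.RA

variable {I W H : Type} [Group W] [Ring H] [Algebra ℤ[T;T⁻¹] H] {M : CoxeterMatrix I}
  {cs : CoxeterSystem M W} {L : W → ℕ}

theorem TT_neg (n : ℤ) : (T n : ℤ[T;T⁻¹]) * T (-n) = 1 := by
  rw [← T_add, add_neg_cancel, T_zero]

theorem TT_neg' (n : ℤ) : (T (-n) : ℤ[T;T⁻¹]) * T n = 1 := by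
  rw [← T_add, neg_add_cancel, T_zero]

theorem simple_simple (i : I) (w : W) : cs.simple i * (cs.simple i * w) = w := by
  rw [← mul_assoc, cs.simple_mul_simple_self, one_mul]

theorem simple_simple' (i : I) (w : W) : w * cs.simple i * cs.simple i = w := by
  rw [mul_assoc, cs.simple_mul_simple_self, mul_one]

open Classical in
theorem repr_left (h1 : H_1) (D : Hecke0 cs L H) (i : I) (Y : H) (z : W) :
    D.t.repr (D.t (cs.simple i) * Y) z = D.t.repr Y (cs.simple i * z) +
      (if cs.length (cs.simple i * z) < cs.length z then xi (L (cs.simple i)) * D.t.repr Y z else 0) := by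
  obtain ⟨-, hup, hdn, -⟩ := h1 I W H M cs L D
  have key : (D.t.coord z) ∘ₗ (LinearMap.mulLeft ℤ[T;T⁻¹] (D.t (cs.simple i))) =
      D.t.coord (cs.simple i * z) +
        (if cs.length (cs.simple i * z) < cs.length z then xi (L (cs.simple i)) else 0) • D.t.coord z := by
    refine D.t.ext fun w => ?_
    simp only [LinearMap.comp_apply, LinearMap.mulLeft_apply, LinearMap.add_apply, LinearMap.smul_apply,
      Module.Basis.coord_apply, smul_eq_mul]
    rcases cs.length_simple_mul w i with hw | hw
    · rw [hup i w hw, Module.Basis.repr_self, Module.Basis.repr_self]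
      by_cases hz : w = z
      · subst hz
        rw [if_neg (by omega), zero_mul, add_zero, Finsupp.single_apply, Finsupp.single_apply]
        by_cases h : cs.simple i * w = w
        · rw [h]
        · rw [if_neg h, if_neg (fun h' => h h'.symm)]
      · rw [Finsupp.single_apply, Finsupp.single_apply, Finsupp.single_apply, if_neg hz, mul_zero, add_zero]
        by_cases h : cs.simple i * w = z
        · rw [if_pos h, if_pos (by rw [← h, simple_simple])]
        · rw [if_neg h, if_neg (fun h' => h (by rw [h', simple_simple]))]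
    · rw [hdn i w hw, map_add, map_smul, Finsupp.add_apply, Finsupp.smul_apply, Module.Basis.repr_self,
        Module.Basis.repr_self, smul_eq_mul, add_comm]
      congr 1
      · rw [Finsupp.single_apply, Finsupp.single_apply]
        by_cases h : cs.simple i * w = z
        · rw [if_pos h, if_pos (by rw [← h, simple_simple])]
        · rw [if_neg h, if_neg (fun h' => h (by rw [h', simple_simple]))]
      · by_cases hz : w = z
        · subst hz
          rw [if_pos (by omega)]
        · rw [Finsupp.single_apply, if_neg hz, mul_zero, mul_zero]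
  have := congrArg (fun f : H →ₗ[ℤ[T;T⁻¹]] ℤ[T;T⁻¹] => f Y) key
  simp only [LinearMap.comp_apply, LinearMap.mulLeft_apply, LinearMap.add_apply, LinearMap.smul_apply,
      Module.Basis.coord_apply, smul_eq_mul] at this
  rw [this]
  congr 1
  split_ifs
  · rfl
  · rw [zero_mul]

open Classical in
theorem repr_right (h1 : H_1) (D : Hecke0 cs L H) (i : I) (Y : H) (z : W) :
    D.t.repr (Y * D.t (cs.simple i)) z = D.t.repr Y (z * cs.simple i) +
      (if cs.length (z * cs.simple i) < cs.length z then xi (L (cs.simple i)) * D.t.repr Y z else 0) := by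
  obtain ⟨-, -, -, hup, hdn, -⟩ := h1 I W H M cs L D
  have key : (D.t.coord z) ∘ₗ (LinearMap.mulRight ℤ[T;T⁻¹] (D.t (cs.simple i))) =
      D.t.coord (z * cs.simple i) +
        (if cs.length (z * cs.simple i) < cs.length z then xi (L (cs.simple i)) else 0) • D.t.coord z := by
    refine D.t.ext fun w => ?_
    simp only [LinearMap.comp_apply, LinearMap.mulRight_apply, LinearMap.add_apply, LinearMap.smul_apply,
      Module.Basis.coord_apply, smul_eq_mul]
    rcases cs.length_mul_simple w i with hw | hw
    · rw [hup i w hw, Module.Basis.repr_self, Module.Basis.repr_self]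
      by_cases hz : w = z
      · subst hz
        rw [if_neg (by omega), zero_mul, add_zero, Finsupp.single_apply, Finsupp.single_apply]
        by_cases h : w * cs.simple i = w
        · rw [h]
        · rw [if_neg h, if_neg (fun h' => h h'.symm)]
      · rw [Finsupp.single_apply, Finsupp.single_apply, Finsupp.single_apply, if_neg hz, mul_zero, add_zero]
        by_cases h : w * cs.simple i = z
        · rw [if_pos h, if_pos (by rw [← h, simple_simple'])]
        · rw [if_neg h, if_neg (fun h' => h (by rw [h', simple_simple']))]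
    · rw [hdn i w hw, map_add, map_smul, Finsupp.add_apply, Finsupp.smul_apply, Module.Basis.repr_self,
        Module.Basis.repr_self, smul_eq_mul, add_comm]
      congr 1
      · rw [Finsupp.single_apply, Finsupp.single_apply]
        by_cases h : w * cs.simple i = z
        · rw [if_pos h, if_pos (by rw [← h, simple_simple'])]
        · rw [if_neg h, if_neg (fun h' => h (by rw [h', simple_simple']))]
      · by_cases hz : w = z
        · subst hz
          rw [if_pos (by omega)]
        · rw [Finsupp.single_apply, if_neg hz, mul_zero, mul_zero]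
  have := congrArg (fun f : H →ₗ[ℤ[T;T⁻¹]] ℤ[T;T⁻¹] => f Y) key
  simp only [LinearMap.comp_apply, LinearMap.mulRight_apply, LinearMap.add_apply, LinearMap.smul_apply,
      Module.Basis.coord_apply, smul_eq_mul] at this
  rw [this]
  congr 1
  split_ifs
  · rfl
  · rw [zero_mul]

/-- `T_s Y = v^(L s) Y` in coordinates -/
theorem eig_left (h1 : H_1) (D : Hecke0 cs L H) (i : I) (Y : H) :
    D.t (cs.simple i) * Y = (T (L (cs.simple i) : ℤ) : ℤ[T;T⁻¹]) • Y ↔
      ∀ z, cs.length (cs.simple i * z) = cs.length z + 1 →
        D.t.repr Y (cs.simple i * z) = T (L (cs.simple i) : ℤ) * D.t.repr Y z := by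
  constructor
  · intro h z hz
    have h2 := repr_left h1 D i Y z
    rw [h, map_smul, Finsupp.smul_apply, smul_eq_mul, if_neg (by omega), add_zero] at h2
    exact h2.symm
  · intro h
    refine D.t.repr.injective (Finsupp.ext fun z => ?_)
    rw [repr_left h1 D i Y z, map_smul, Finsupp.smul_apply, smul_eq_mul]
    rcases cs.length_simple_mul z i with hz | hz
    · rw [if_neg (by omega), add_zero, h z hz]
    · rw [if_pos (by omega)]
      have h2 := h (cs.simple i * z) (by rw [simple_simple]; omega)
      rw [simple_simple] at h2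
      have h3 : D.t.repr Y (cs.simple i * z) = T (-(L (cs.simple i) : ℤ)) * D.t.repr Y z := by
        rw [h2, ← mul_assoc, TT_neg', one_mul]
      rw [h3, xi]
      ring

/-- `Y T_s = v^(L s) Y` in coordinates -/
theorem eig_right (h1 : H_1) (D : Hecke0 cs L H) (i : I) (Y : H)
    (h : ∀ z, cs.length (z * cs.simple i) = cs.length z + 1 →
        D.t.repr Y (z * cs.simple i) = T (L (cs.simple i) : ℤ) * D.t.repr Y z) :
    Y * D.t (cs.simple i) = (T (L (cs.simple i) : ℤ) : ℤ[T;T⁻¹]) • Y := by
  refine D.t.repr.injective (Finsupp.ext fun z => ?_)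
  rw [repr_right h1 D i Y z, map_smul, Finsupp.smul_apply, smul_eq_mul]
  rcases cs.length_mul_simple z i with hz | hz
  · rw [if_neg (by omega), add_zero, h z hz]
  · rw [if_pos (by omega)]
    have h2 := h (z * cs.simple i) (by rw [simple_simple']; omega)
    rw [simple_simple'] at h2
    have h3 : D.t.repr Y (z * cs.simple i) = T (-(L (cs.simple i) : ℤ)) * D.t.repr Y z := by
      rw [h2, ← mul_assoc, TT_neg', one_mul]
    rw [h3, xi]
    ring

/-- the coordinates of a common eigenvector -/
theorem eig_coord (h1 : H_1) (wt : IsWeight cs L) (hL1 : L 1 = 0) (D : Hecke0 cs L H) (Y : H)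
    (h : ∀ i, D.t (cs.simple i) * Y = (T (L (cs.simple i) : ℤ) : ℤ[T;T⁻¹]) • Y) (y : W) :
    D.t.repr Y y = T (L y : ℤ) * D.t.repr Y 1 := by
  induction hn : cs.length y using Nat.strong_induction_on generalizing y with
  | _ n ih =>
    by_cases hy : y = 1
    · subst hy
      rw [hL1, Nat.cast_zero, T_zero, one_mul]
    · obtain ⟨i, hi⟩ := cs.exists_leftDescent_of_ne_one hy
      have hi' : cs.length (cs.simple i * y) + 1 = cs.length y := cs.isLeftDescent_iff.1 hi
      have h2 := (eig_left h1 D i Y).1 (h i) (cs.simple i * y) (by rw [simple_simple]; omega)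
      rw [simple_simple] at h2
      rw [h2, ih (cs.length (cs.simple i * y)) (by omega) (cs.simple i * y) rfl, ← mul_assoc, ← T_add]
      have h3 := wt.add (cs.simple i) (cs.simple i * y) (by rw [simple_simple, cs.length_simple]; omega)
      rw [simple_simple] at h3
      rw [h3]
      push_cast
      rfl

/-- `T_x Y = v^(L x) Y` for a common eigenvector -/
theorem eig_all_left (h1 : H_1) (wt : IsWeight cs L) (hL1 : L 1 = 0) (D : Hecke0 cs L H) (Y : H)
    (h : ∀ i, D.t (cs.simple i) * Y = (T (L (cs.simple i) : ℤ) : ℤ[T;T⁻¹]) • Y) (y : W) :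
    D.t y * Y = (T (L y : ℤ) : ℤ[T;T⁻¹]) • Y := by
  obtain ⟨ht1, hup, -⟩ := h1 I W H M cs L D
  induction hn : cs.length y using Nat.strong_induction_on generalizing y with
  | _ n ih =>
    by_cases hy : y = 1
    · subst hy
      rw [hL1, Nat.cast_zero, T_zero, one_smul, ht1, one_mul]
    · obtain ⟨i, hi⟩ := cs.exists_leftDescent_of_ne_one hy
      have hi' : cs.length (cs.simple i * y) + 1 = cs.length y := cs.isLeftDescent_iff.1 hi
      have h2 := hup i (cs.simple i * y) (by rw [simple_simple]; omega)
      rw [simple_simple] at h2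
      rw [← h2, mul_assoc, ih (cs.length (cs.simple i * y)) (by omega) (cs.simple i * y) rfl,
        mul_smul_comm, h i, smul_smul, ← T_add]
      have h3 := wt.add (cs.simple i) (cs.simple i * y) (by rw [simple_simple, cs.length_simple]; omega)
      rw [simple_simple] at h3
      rw [h3]
      push_cast
      rw [add_comm]

/-- `Y T_x = v^(L x) Y` for a common eigenvector -/
theorem eig_all_right (h1 : H_1) (wt : IsWeight cs L) (hL1 : L 1 = 0) (D : Hecke0 cs L H) (Y : H)
    (h : ∀ i, Y * D.t (cs.simple i) = (T (L (cs.simple i) : ℤ) : ℤ[T;T⁻¹]) • Y) (y : W) :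
    Y * D.t y = (T (L y : ℤ) : ℤ[T;T⁻¹]) • Y := by
  obtain ⟨ht1, hup, -⟩ := h1 I W H M cs L D
  induction hn : cs.length y using Nat.strong_induction_on generalizing y with
  | _ n ih =>
    by_cases hy : y = 1
    · subst hy
      rw [hL1, Nat.cast_zero, T_zero, one_smul, ht1, mul_one]
    · obtain ⟨i, hi⟩ := cs.exists_leftDescent_of_ne_one hy
      have hi' : cs.length (cs.simple i * y) + 1 = cs.length y := cs.isLeftDescent_iff.1 hi
      have h2 := hup i (cs.simple i * y) (by rw [simple_simple]; omega)
      rw [simple_simple] at h2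
      rw [← h2, ← mul_assoc, h i, smul_mul_assoc,
        ih (cs.length (cs.simple i * y)) (by omega) (cs.simple i * y) rfl, smul_smul, ← T_add]
      have h3 := wt.add (cs.simple i) (cs.simple i * y) (by rw [simple_simple, cs.length_simple]; omega)
      rw [simple_simple] at h3
      rw [h3]
      push_cast
      rfl

end Pool.Agent.Helper98.RA
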